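import Pool.Agent.helper595.VB.FA

set_option autoImplicit false

/-!
# VB/WS: weak sums of pure algebras (helper49)
-/

namespace Pool.Agent.N49.VB

open Pool.Agent.N641.VB

section gen

variable {A : Type} [BooleanAlgebra A]

/-- the ideals over zero -/
abbrev D (n : ℕ) (a : A) : Prop := DD (fun b : A => b = ⊥) n a

theorem D_mono {n : ℕ} {a b : A} (h : b ≤ a) (ha : D n a) : D n b := by
  cases n with
  | zero =>
    have h1 : a = ⊥ := ha
    rw [h1] at h
    exact le_bot_iff.1 h
  | succ n =>
    obtain ⟨s, h1, h2⟩ := ha
    exact ⟨s, h1, h.trans h2⟩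

theorem D_bot (n : ℕ) : D n (⊥ : A) := by
  cases n with
  | zero => exact rfl
  | succ n => exact ⟨∅, fun c hc => absurd hc (Finset.notMem_empty c), bot_le⟩

theorem D_sup {n : ℕ} {a b : A} (ha : D n a) (hb : D n b) : D n (a ⊔ b) := by
  classical
  cases n with
  | zero =>
    have h1 : a = ⊥ := ha
    have h2 : b = ⊥ := hb
    change a ⊔ b = ⊥
    rw [h1, h2, sup_bot_eq]
  | succ n =>
    obtain ⟨s, h1, h2⟩ := ha
    obtain ⟨t, h3, h4⟩ := hb
    refine ⟨s ∪ t, fun c hc => ?_, ?_⟩
    · rcases Finset.mem_union.1 hc with h | h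
      · exact h1 c h
      · exact h3 c h
    · rw [Finset.sup_union]
      exact sup_le_sup h2 h4

theorem D_succ {n : ℕ} {a : A} (ha : D n a) : D (n + 1) a := by
  refine ⟨{a}, fun c hc d hd => Or.inl ?_, ?_⟩
  · rw [Finset.mem_singleton.1 hc] at hd
    exact D_mono hd ha
  · rw [Finset.sup_singleton]
    exact le_rfl

theorem D_le {n m : ℕ} (h : n ≤ m) {a : A} (ha : D n a) : D m a := by
  induction m, h using Nat.le_induction with
  | base => exact ha
  | succ m _ ih => exact D_succ ih

theorem D_fsup {ι : Type} {n : ℕ} (s : Finset ι) (f : ι → A) (h : ∀ i ∈ s, D n (f i)) :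
    D n (s.sup f) := by
  classical
  induction s using Finset.induction_on with
  | empty =>
    rw [Finset.sup_empty]
    exact D_bot n
  | insert i s hi ih =>
    rw [Finset.sup_insert]
    exact D_sup (h i (Finset.mem_insert_self i s))
      (ih fun j hj => h j (Finset.mem_insert_of_mem hj))

theorem AL_mono {n : ℕ} {a b : A} (h : b ≤ a) (ha : AL (fun b : A => b = ⊥) n a) :
    AL (fun b : A => b = ⊥) n b := fun c hc => ha c (hc.trans h)

end gen

section main

variable {E : ℕ → Type} [∀ i, BooleanAlgebra (E i)] {r : Bool → Set ℕ} {A : Type}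
  [BooleanAlgebra A] {val : A → ∀ i, E i} {π : A → Bool}

theorem val_inj (F : FAlg E r val π) {x y : A} (h : val x = val y) : x = y :=
  le_antisymm ((F.le x y).2 h.le) ((F.le y x).2 h.ge)

theorem emb_ex (F : FAlg E r val π) (hr : r false = ∅) (i : ℕ) (e : E i) :
    ∃ x : A, val x = Function.update (fun _ => ⊥) i e := by
  obtain ⟨x, h1, -⟩ := F.surj false (Function.update (fun _ => ⊥) i e)
    (by rw [hr]; simp)
    ((Set.finite_singleton i).subset fun j hj => by
      by_contra h
      exact hj.2 (Function.update_of_ne h _ _))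
  exact ⟨x, h1⟩

/-- the embedding of the coordinate `i` -/
noncomputable def em (F : FAlg E r val π) (hr : r false = ∅) (i : ℕ) (e : E i) : A :=
  (emb_ex F hr i e).choose

theorem val_em (F : FAlg E r val π) (hr : r false = ∅) (i : ℕ) (e : E i) :
    val (em F hr i e) = Function.update (fun _ => ⊥) i e := (emb_ex F hr i e).choose_spec

theorem val_em_self (F : FAlg E r val π) (hr : r false = ∅) (i : ℕ) (e : E i) :
    val (em F hr i e) i = e := by
  rw [val_em F hr, Function.update_self]

theorem em_le (F : FAlg E r val π) (hr : r false = ∅) (i : ℕ) (e : E i) (x : A) :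
    em F hr i e ≤ x ↔ e ≤ val x i := by
  rw [F.le, val_em F hr]
  constructor
  · intro h
    have := h i
    rwa [Function.update_self] at this
  · intro h j
    rcases eq_or_ne j i with rfl | hj
    · rw [Function.update_self]
      exact h
    · rw [Function.update_of_ne hj]
      exact bot_le

theorem eq_em (F : FAlg E r val π) (hr : r false = ∅) {i : ℕ} {e : E i} {x : A}
    (h : x ≤ em F hr i e) : x = em F hr i (val x i) := by
  refine val_inj F ?_
  rw [val_em F hr]
  funext j
  rcases eq_or_ne j i with rfl | hj
  · rw [Function.update_self]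
  · rw [Function.update_of_ne hj]
    have h1 := (F.le _ _).1 h j
    rw [val_em F hr, Function.update_of_ne hj] at h1
    exact le_bot_iff.1 h1

theorem em_mono (F : FAlg E r val π) (hr : r false = ∅) {i : ℕ} {c e : E i} (h : c ≤ e) :
    em F hr i c ≤ em F hr i e := by
  rw [em_le, val_em_self F hr]
  exact h

theorem em_sdiff (F : FAlg E r val π) (hr : r false = ∅) (i : ℕ) (e c : E i) :
    em F hr i e \ em F hr i c = em F hr i (e \ c) := by
  have h1 : em F hr i e \ em F hr i c ≤ em F hr i e := sdiff_le
  rw [eq_em F hr h1, F.sdiff]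
  change em F hr i (val (em F hr i e) i \ val (em F hr i c) i) = _
  rw [val_em_self F hr, val_em_self F hr]

theorem em_sup (F : FAlg E r val π) (hr : r false = ∅) (i : ℕ) (e c : E i) :
    em F hr i (e ⊔ c) = em F hr i e ⊔ em F hr i c := by
  refine le_antisymm ?_ (sup_le (em_mono F hr le_sup_left) (em_mono F hr le_sup_right))
  rw [em_le, F.sup]
  change e ⊔ c ≤ val (em F hr i e) i ⊔ val (em F hr i c) i
  rw [val_em_self F hr, val_em_self F hr]

theorem em_bot (F : FAlg E r val π) (hr : r false = ∅) (i : ℕ) : em F hr i ⊥ = ⊥ := by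
  refine le_bot_iff.1 ?_
  rw [em_le]
  exact bot_le

theorem em_fsup (F : FAlg E r val π) (hr : r false = ∅) (i : ℕ) (s : Finset (E i)) :
    em F hr i (s.sup id) = s.sup (em F hr i) := by
  classical
  induction s using Finset.induction_on with
  | empty => rw [Finset.sup_empty, Finset.sup_empty, em_bot]
  | insert c s hc ih => rw [Finset.sup_insert, Finset.sup_insert, em_sup, ih]; rfl

theorem val_fsup (F : FAlg E r val π) (i : ℕ) (s : Finset A) :
    val (s.sup id) i = s.sup (fun c => val c i) := by
  classical
  induction s using Finset.induction_on with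
  | empty => rw [Finset.sup_empty, Finset.sup_empty, F.bot]; rfl
  | insert c s hc ih =>
    rw [Finset.sup_insert, Finset.sup_insert, F.sup, ← ih]
    rfl

theorem D_val (F : FAlg E r val π) (hr : r false = ∅) :
    ∀ (n : ℕ) (x : A), D n x → ∀ i, D n (val x i)
  | 0, x, h, i => by
    have h1 : x = ⊥ := h
    change val x i = ⊥
    rw [h1, F.bot]
    rfl
  | n + 1, x, h, i => by
    classical
    obtain ⟨s, h1, h2⟩ := h
    refine ⟨s.image (fun c => val c i), fun c hc d hd => ?_, ?_⟩
    · obtain ⟨c', hc', rfl⟩ := Finset.mem_image.1 hc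
      rcases h1 c' hc' (em F hr i d) ((em_le F hr i d c').2 hd) with h | h
      · left
        have := D_val F hr n _ h i
        rwa [val_em_self F hr] at this
      · right
        have := D_val F hr n _ h i
        rw [F.sdiff] at this
        change D n (val c' i \ val (em F hr i d) i) at this
        rwa [val_em_self F hr] at this
    · have h3 := (F.le _ _).1 h2 i
      rw [val_fsup F] at h3
      rw [Finset.sup_image]
      exact h3

theorem D_em (F : FAlg E r val π) (hr : r false = ∅) :
    ∀ (n : ℕ) (i : ℕ) (e : E i), D n e → D n (em F hr i e)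
  | 0, i, e, h => by
    have h1 : e = ⊥ := h
    change em F hr i e = ⊥
    rw [h1, em_bot]
  | n + 1, i, e, h => by
    classical
    obtain ⟨s, h1, h2⟩ := h
    refine ⟨s.image (em F hr i), fun c hc d hd => ?_, ?_⟩
    · obtain ⟨c', hc', rfl⟩ := Finset.mem_image.1 hc
      have h3 : val d i ≤ c' := by
        have := (F.le _ _).1 hd i
        rwa [val_em_self F hr] at this
      have h4 := eq_em F hr hd
      rcases h1 c' hc' _ h3 with h | h
      · left
        rw [h4]
        exact D_em F hr n i _ h
      · right
        rw [h4, em_sdiff]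
        exact D_em F hr n i _ h
    · rw [Finset.sup_image, Function.id_comp, ← em_fsup]
      exact em_mono F hr h2

theorem D_em_iff (F : FAlg E r val π) (hr : r false = ∅) (n i : ℕ) (e : E i) :
    D n (em F hr i e) ↔ D n e :=
  ⟨fun h => by
    have := D_val F hr n _ h i
    rwa [val_em_self F hr] at this, D_em F hr n i e⟩

theorem AL_em (F : FAlg E r val π) (hr : r false = ∅) (n i : ℕ) (e : E i) :
    AL (fun b : A => b = ⊥) n (em F hr i e) ↔ AL (fun b : E i => b = ⊥) n e := by
  constructor
  · intro h c hc hD
    obtain ⟨d, hd, h1, h2⟩ := h (em F hr i c) (em_mono F hr hc) (fun h => hD ((D_em_iff F hr n i c).1 h))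
    have h4 := eq_em F hr hd
    refine ⟨val d i, ?_, ?_, ?_⟩
    · have := (F.le _ _).1 hd i
      rwa [val_em_self F hr] at this
    · intro h5
      apply h1
      rw [h4]
      exact D_em F hr n i _ h5
    · intro h5
      apply h2
      rw [h4, em_sdiff]
      exact D_em F hr n i _ h5
  · intro h c hc hD
    have h4 := eq_em F hr hc
    have h3 : val c i ≤ e := by
      have := (F.le _ _).1 hc i
      rwa [val_em_self F hr] at this
    obtain ⟨d, hd, h1, h2⟩ := h (val c i) h3 (fun h5 => hD (by
      change D n c
      rw [h4]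
      exact D_em F hr n i _ h5))
    refine ⟨em F hr i d, (em_le F hr i d c).2 hd, fun h5 => h1 ((D_em_iff F hr n i d).1 h5),
      fun h5 => h2 ?_⟩
    have h6 : D n (c \ em F hr i d) := h5
    rw [h4, em_sdiff] at h6
    exact (D_em_iff F hr n i _).1 h6

end main

theorem WS : S_WS := by
  classical
  intro E _ _ g hg hP
  have : ∀ i, Nontrivial (E i) := fun i => by
    refine ⟨⊥, ⊤, fun h => (hP i).top ?_⟩
    rw [← h]
    exact D_bot (g i)
  let r : Bool → Set ℕ := fun b => {_n : ℕ | b = true}
  have hrf : r false = ∅ := by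
    ext n
    simp [r]
  have hrt : r true = Set.univ := by
    ext n
    simp [r]
  obtain ⟨A, instA, val, π, hcA, F⟩ := Pool.Agent.helper595.VB.FA ℕ E Bool r
    (fun b c => by ext n; simp [r]) (fun b => by ext n; simp [r])
    (fun b hb => by
      have : b = true := by
        cases b with
        | false => exact absurd rfl hb
        | true => rfl
      rw [this, hrt]
      exact Set.infinite_univ)
  -- the two kinds of elements
  have hoff : ∀ x, π x = false → {i | val x i ≠ ⊥}.Finite := by
    intro x hx
    have h1 := F.off x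
    rw [hx, hrf] at h1
    refine h1.subset fun i hi => ⟨Set.notMem_empty i, hi⟩
  have hon : ∀ x, π x = true → ∀ n, ∃ i, n < g i ∧ val x i = ⊤ := by
    intro x hx n
    have h1 := F.on x
    rw [hx, hrt] at h1
    obtain ⟨N, hN⟩ := (h1.subset (fun i hi => ⟨Set.mem_univ i, hi⟩ :
      {i | val x i ≠ ⊤} ⊆ {i | i ∈ Set.univ ∧ val x i ≠ ⊤})).bddAbove
    refine ⟨N + n + 1, ?_, ?_⟩
    · have := hg.id_le (N + n + 1)
      simp only [id] at this
      omega
    · by_contra h
      have := hN h
      omega
  refine ⟨A, instA, hcA, ⟨⊥, ⊤, fun h => ?_⟩, ?_⟩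
  · have h1 := F.ptop
    rw [← h, F.pbot] at h1
    exact Bool.false_ne_true h1
  · ext n
    constructor
    · rintro ⟨b, -, h1, h2, h3⟩
      cases hb : π b with
      | true =>
        exfalso
        obtain ⟨i, hi, hv⟩ := hon b hb n
        have h4 : em F hrf i ⊤ ≤ b := by
          rw [em_le, hv]
        have h5 := (AL_em F hrf n i ⊤).1 (AL_mono h4 h2)
        exact (hP i).top (D_le hi.le ((hP i).low n hi ⊤ h5))
      | false =>
        have hfin := hoff b hb
        have h4 : ∃ i, ¬ D n (val b i) := by
          by_contra hcon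
          push Not at hcon
          apply h1
          have h5 : b ≤ hfin.toFinset.sup (fun i => em F hrf i (val b i)) := by
            rw [F.le]
            intro i
            by_cases hi : val b i = ⊥
            · rw [hi]
              exact bot_le
            · have h6 : em F hrf i (val b i) ≤
                  hfin.toFinset.sup (fun i => em F hrf i (val b i)) :=
                Finset.le_sup (f := fun i => em F hrf i (val b i)) (hfin.mem_toFinset.2 hi)
              exact (em_le F hrf i _ _).1 h6
          exact D_mono h5 (D_fsup _ _ fun i _ => D_em F hrf n i _ (hcon i))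
        obtain ⟨i, hi⟩ := h4
        have h5 : em F hrf i (val b i) ≤ b := (em_le F hrf i _ _).2 le_rfl
        have h6 := (AL_em F hrf n i (val b i)).1 (AL_mono h5 h2)
        refine ⟨i, ?_⟩
        rcases lt_trichotomy (g i) n with h | h | h
        · exfalso
          have h7 : AL (fun b : A => b = ⊥) (g i) (em F hrf i (val b i)) :=
            (AL_em F hrf (g i) i _).2 (AL_mono le_top (hP i).al)
          exact hi ((D_em_iff F hrf n i _).1 (h3 _ h5 (g i) h h7))
        · exact h
        · exact absurd ((hP i).low n h _ h6) hi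
    · rintro ⟨i, rfl⟩
      refine ⟨em F hrf i ⊤, le_top, fun h => (hP i).top ((D_em_iff F hrf _ i _).1 h),
        (AL_em F hrf _ i _).2 (hP i).al, fun c hc m hm h => ?_⟩
      have h4 := eq_em F hrf hc
      rw [h4] at h
      have h5 := (hP i).low m hm _ ((AL_em F hrf m i _).1 h)
      change D (g i) c
      rw [h4]
      exact D_em F hrf (g i) i _ (D_le hm.le h5)

end Pool.Agent.N49.VB
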